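import Pool.Agent.Helper46.CU.Stmts

/-! # MP_040934_nt, cu_mods: module PRT -/

set_option autoImplicit false

namespace Pool.Agent.Helper46.CU

open Finset

theorem prt_sq_dvd (v n : ℕ) (hv : Squarefree v) (h : ∀ p : ℕ, p.Prime → p ∣ v → p ∣ n) :
    v ∣ n := by
  rw [← Nat.prod_primeFactors_of_squarefree hv]
  exact Finset.prod_primes_dvd _ (fun p hp => (Nat.prime_of_mem_primeFactors hp).prime)
    (fun p hp => h p (Nat.prime_of_mem_primeFactors hp) (Nat.dvd_of_mem_primeFactors hp))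

theorem prt_dvd (a b s v : ℕ) (ha : 2 ≤ a) (hb : 2 ≤ b)
    (hsq : IsSquare ((a ^ 3 - 1) * (b ^ 3 - 1))) (hv : Squarefree v)
    (e : b ^ 2 + b + 1 = s ^ 2 * v) : v ∣ 3 * (a ^ 3 - 1) := by
  apply prt_sq_dvd v _ hv
  intro p hp hpv
  by_cases h3 : p = 3
  · rw [h3]
    exact dvd_mul_right 3 _
  apply Dvd.dvd.mul_left
  have ha3 : 2 ^ 3 ≤ a ^ 3 := Nat.pow_le_pow_left ha 3
  have hN : a ^ 3 - 1 ≠ 0 := by omega
  have hb1 : b - 1 ≠ 0 := by omega
  have hv0 : v ≠ 0 := hv.ne_zero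
  have hs0 : s ≠ 0 := by
    rintro rfl
    simp at e
  have hM : b ^ 3 - 1 = (b - 1) * (s ^ 2 * v) := by
    rw [← e]
    obtain ⟨c, rfl⟩ : ∃ c, b = c + 1 := ⟨b - 1, by omega⟩
    have h1 : (c + 1) ^ 3 = (c + 1 - 1) * ((c + 1) ^ 2 + (c + 1) + 1) + 1 := by
      rw [Nat.add_sub_cancel]
      ring
    rw [h1, Nat.add_sub_cancel]
  have hpb : ¬ p ∣ b - 1 := by
    intro h
    have h1 : p ∣ b ^ 2 + b + 1 := by
      rw [e]
      exact hpv.mul_left _
    obtain ⟨c, rfl⟩ : ∃ c, b = c + 1 := ⟨b - 1, by omega⟩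
    rw [Nat.add_sub_cancel] at h
    have h2 : (c + 1) ^ 2 + (c + 1) + 1 = c * (c + 3) + 3 := by ring
    rw [h2] at h1
    have h4 : p ∣ 3 := (Nat.dvd_add_right (h.mul_right _)).1 h1
    exact h3 ((Nat.prime_dvd_prime_iff_eq hp Nat.prime_three).1 h4)
  have hfb : (b - 1).factorization p = 0 := Nat.factorization_eq_zero_of_not_dvd hpb
  have hfv : v.factorization p = 1 :=
    le_antisymm (hv.natFactorization_le_one p) (hp.factorization_pos_of_dvd hv0 hpv)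
  have hsv : s ^ 2 * v ≠ 0 := mul_ne_zero (pow_ne_zero _ hs0) hv0
  obtain ⟨w, hw⟩ := hsq
  have hw0 : w ≠ 0 := by
    rintro rfl
    rw [hM, mul_zero] at hw
    exact (mul_ne_zero hN (mul_ne_zero hb1 hsv)) hw
  have h1 : ((a ^ 3 - 1) * (b ^ 3 - 1)).factorization p = 2 * w.factorization p := by
    rw [hw, Nat.factorization_mul hw0 hw0, Finsupp.add_apply]
    ring
  have h2 : ((a ^ 3 - 1) * (b ^ 3 - 1)).factorization p =
      (a ^ 3 - 1).factorization p + (2 * s.factorization p + 1) := by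
    rw [hM, Nat.factorization_mul hN (mul_ne_zero hb1 hsv), Nat.factorization_mul hb1 hsv,
      Nat.factorization_mul (pow_ne_zero _ hs0) hv0, Nat.factorization_pow]
    simp only [Finsupp.add_apply, Finsupp.smul_apply, smul_eq_mul, hfb, hfv]
    ring
  have h4 : 0 < (a ^ 3 - 1).factorization p := by omega
  exact Nat.dvd_of_factorization_pos h4.ne'

theorem prt_card (h1 : ST_PELL) (a B : ℕ) (ha : 2 ≤ a) (hB : 2 ≤ B) :
    (parS a B).card ≤ (3 * (a ^ 3 - 1)).divisors.card * (3 * (1 + Nat.log 2 (B + 1))) := by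
  classical
  have ha3 : 2 ^ 3 ≤ a ^ 3 := Nat.pow_le_pow_left ha 3
  have hsub : parS a B ⊆ (3 * (a ^ 3 - 1)).divisors.biUnion (fun v => pellS v B) := by
    intro b hb
    simp only [parS, mem_filter, mem_Icc] at hb
    obtain ⟨⟨hb2, hbB⟩, hsq⟩ := hb
    obtain ⟨v, s, he, hv⟩ := Nat.sq_mul_squarefree (b ^ 2 + b + 1)
    rw [mem_biUnion]
    refine ⟨v, ?_, ?_⟩
    · rw [Nat.mem_divisors]
      exact ⟨prt_dvd a b s v ha hb2 hsq hv he.symm, by omega⟩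
    · simp only [pellS, mem_filter, mem_Icc]
      exact ⟨⟨by omega, hbB⟩, s, by rw [← he]; ring⟩
  calc (parS a B).card ≤ ((3 * (a ^ 3 - 1)).divisors.biUnion (fun v => pellS v B)).card :=
        card_le_card hsub
    _ ≤ ∑ v ∈ (3 * (a ^ 3 - 1)).divisors, (pellS v B).card := card_biUnion_le
    _ ≤ ∑ v ∈ (3 * (a ^ 3 - 1)).divisors, 3 * (1 + Nat.log 2 (B + 1)) :=
        sum_le_sum fun v hv => h1 v B (Nat.pos_of_mem_divisors hv) (by omega)
    _ = _ := by rw [sum_const, smul_eq_mul]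

theorem prt_log (ε : ℝ) (hε : 0 < ε) (B : ℕ) (hB : 2 ≤ B) :
    1 + (Nat.log 2 (B + 1) : ℝ) ≤ (2 + 1 / (ε * Real.log 2)) * (B : ℝ) ^ ε := by
  have hB1 : (1 : ℝ) ≤ B := by exact_mod_cast (by omega : 1 ≤ B)
  have hl2 : 0 < Real.log 2 := Real.log_pos (by norm_num)
  have h1 : (Nat.log 2 (B + 1) : ℝ) ≤ Real.logb 2 ((B + 1 : ℕ) : ℝ) := by
    exact_mod_cast Real.natLog_le_logb (B + 1) 2
  have h2 : Real.logb 2 ((B + 1 : ℕ) : ℝ) ≤ 1 + Real.log B / Real.log 2 := by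
    have h3 : ((B + 1 : ℕ) : ℝ) ≤ 2 * B := by
      push_cast
      linarith
    have h4 : Real.log ((B + 1 : ℕ) : ℝ) ≤ Real.log 2 + Real.log B := by
      rw [← Real.log_mul (by norm_num) (by linarith)]
      exact Real.log_le_log (by positivity) h3
    unfold Real.logb
    rw [div_le_iff₀ hl2, add_mul, div_mul_cancel₀ _ hl2.ne', one_mul]
    exact h4
  have h5 : Real.log B ≤ (B : ℝ) ^ ε / ε := Real.log_le_rpow_div (by linarith) hε
  have h6 : Real.log B / Real.log 2 ≤ 1 / (ε * Real.log 2) * (B : ℝ) ^ ε := by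
    rw [div_le_iff₀ hl2]
    calc Real.log B ≤ (B : ℝ) ^ ε / ε := h5
      _ = 1 / (ε * Real.log 2) * (B : ℝ) ^ ε * Real.log 2 := by
        field_simp
  have h7 : 1 ≤ (B : ℝ) ^ ε := Real.one_le_rpow hB1 hε.le
  linarith

theorem st_PRT (h1 : ST_PELL) : ST_PRT := by
  intro ε hε
  obtain ⟨C, hC, hdiv⟩ := Pool.Agent.Helper15.Hall.card_divisors_le_rpow (ε / 4) (by linarith)
  have hl2 : 0 < Real.log 2 := Real.log_pos (by norm_num)
  refine ⟨C * 3 ^ (ε / 4) * (3 * (2 + 1 / (ε * Real.log 2))), by positivity, ?_⟩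
  intro a B ha hB
  have ha3 : 2 ^ 3 ≤ a ^ 3 := Nat.pow_le_pow_left ha 3
  have ha1 : (1 : ℝ) ≤ a := by exact_mod_cast (by omega : 1 ≤ a)
  have h2 : ((parS a B).card : ℝ) ≤ ((3 * (a ^ 3 - 1)).divisors.card : ℝ) *
      (3 * (1 + (Nat.log 2 (B + 1) : ℝ))) := by
    exact_mod_cast prt_card h1 a B ha hB
  have h3 : ((3 * (a ^ 3 - 1)).divisors.card : ℝ) ≤ C * 3 ^ (ε / 4) * (a : ℝ) ^ ε := by
    refine (hdiv (3 * (a ^ 3 - 1)) (by omega)).trans ?_
    have h4 : (((3 * (a ^ 3 - 1) : ℕ)) : ℝ) ≤ 3 * (a : ℝ) ^ 3 := by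
      have : 3 * (a ^ 3 - 1) ≤ 3 * a ^ 3 := by omega
      exact_mod_cast this
    have h5 : (((3 * (a ^ 3 - 1) : ℕ)) : ℝ) ^ (ε / 4) ≤ 3 ^ (ε / 4) * (a : ℝ) ^ ε := by
      calc (((3 * (a ^ 3 - 1) : ℕ)) : ℝ) ^ (ε / 4) ≤ (3 * (a : ℝ) ^ 3) ^ (ε / 4) :=
            Real.rpow_le_rpow (by positivity) h4 (by linarith)
        _ = 3 ^ (ε / 4) * ((a : ℝ) ^ 3) ^ (ε / 4) :=
            Real.mul_rpow (by norm_num) (by positivity)
        _ ≤ 3 ^ (ε / 4) * (a : ℝ) ^ ε := by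
            apply mul_le_mul_of_nonneg_left _ (by positivity)
            rw [← Real.rpow_natCast, ← Real.rpow_mul (by positivity)]
            apply Real.rpow_le_rpow_of_exponent_le ha1
            push_cast
            linarith
    rw [mul_assoc]
    exact mul_le_mul_of_nonneg_left h5 (by linarith)
  have h6 := prt_log ε hε B hB
  calc ((parS a B).card : ℝ) ≤ ((3 * (a ^ 3 - 1)).divisors.card : ℝ) *
      (3 * (1 + (Nat.log 2 (B + 1) : ℝ))) := h2
    _ ≤ (C * 3 ^ (ε / 4) * (a : ℝ) ^ ε) * (3 * ((2 + 1 / (ε * Real.log 2)) * (B : ℝ) ^ ε)) :=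
        mul_le_mul h3 (by linarith) (by positivity) (by positivity)
    _ = C * 3 ^ (ε / 4) * (3 * (2 + 1 / (ε * Real.log 2))) * ((a : ℝ) ^ ε * (B : ℝ) ^ ε) := by
        ring
    _ = _ := by rw [Real.mul_rpow (by positivity) (by positivity)]

end Pool.Agent.Helper46.CU
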